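import Mathlib

/-!
A Kneser-type extension of Pollard's theorem for popular sums: the statement of the problem fails
for every `t ≥ 3`, with `G = ZMod 3 × ZMod (t - 1)`.
-/

namespace Pool.Agent.Results.MP_cd64ef_nt.EveryTFromThree

open Finset

/-- The number of pairs `(a, b)` of `A × B` with `a + b = g`. -/
def rep {G : Type} [AddCommGroup G] [DecidableEq G] (A B : Finset G) (g : G) : ℕ :=
  ((A ×ˢ B).filter fun p => p.1 + p.2 = g).card

/-- The `t`-popular sumset of `A` and `B` (for `t ≥ 1`). -/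
def popular {G : Type} [AddCommGroup G] [DecidableEq G] (A B : Finset G) (t : ℕ) : Finset G :=
  ((A ×ˢ B).image fun p => p.1 + p.2).filter fun g => t ≤ rep A B g

/-- The stabilizer of a finite set. -/
def stab {G : Type} [AddCommGroup G] [DecidableEq G] (X : Finset G) : Set G :=
  {e | X.image (fun x => e + x) = X}

/-- The hypothesis of the question. -/
def Hyp {G : Type} [AddCommGroup G] [DecidableEq G] (t : ℕ) (A B : Finset G) : Prop :=
  t ≤ A.card ∧ t ≤ B.card ∧
    (∑ i ∈ Finset.Icc 1 t, ((popular A B i).card : ℤ)) < t * A.card + t * B.card - (t : ℤ) ^ 2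

/-- The three properties of the sets `A'` and `B'` asked for, when `t = s |H| + u`. -/
def Subsets {G : Type} [AddCommGroup G] [DecidableEq G] (t u : ℕ) (A B : Finset G) : Prop :=
  ∃ A' ⊆ A, ∃ B' ⊆ B, (A \ A').card + (B \ B').card < u ∧
    popular A' B' 1 = popular A' B' u ∧ popular A' B' u = popular A B u ∧
    stab (popular A' B' 1) = stab (popular A B t) ∧
    stab (popular A' B' u) = stab (popular A B t)

lemma rep_pos {G : Type} [AddCommGroup G] [DecidableEq G] (A B : Finset G) (g : G)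
    (h : 1 ≤ rep A B g) : g ∈ (A ×ˢ B).image fun p => p.1 + p.2 := by
  obtain ⟨p, hp⟩ := Finset.card_pos.1 h
  rw [Finset.mem_filter] at hp
  exact Finset.mem_image.2 ⟨p, hp.1, hp.2⟩

lemma mem_popular {G : Type} [AddCommGroup G] [DecidableEq G] (A B : Finset G) (t : ℕ)
    (ht : 1 ≤ t) (g : G) : g ∈ popular A B t ↔ t ≤ rep A B g := by
  rw [popular, Finset.mem_filter]
  exact ⟨fun h => h.2, fun h => ⟨rep_pos A B g (ht.trans h), h⟩⟩

lemma rep_prod (h : ℕ) [NeZero h] (S T : Finset (ZMod 3)) (g : ZMod 3 × ZMod h) :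
    rep (S ×ˢ (univ : Finset (ZMod h))) (T ×ˢ (univ : Finset (ZMod h))) g = rep S T g.1 * h := by
  have hc : (univ : Finset (ZMod h)).card = h := by rw [Finset.card_univ, ZMod.card]
  have e : rep S T g.1 * h = rep S T g.1 * (univ : Finset (ZMod h)).card := by rw [hc]
  rw [e, rep, rep, ← Finset.card_product]
  refine Finset.card_nbij' (fun p => ((p.1.1, p.2.1), p.1.2))
    (fun q => ((q.1.1, q.2), (q.1.2, g.2 - q.2))) ?_ ?_ ?_ ?_
  · rintro ⟨⟨a, x⟩, ⟨b, y⟩⟩ hp
    simp only [Finset.coe_filter, Finset.mem_product, Finset.mem_univ, and_true, Set.mem_setOf_eq,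
      Prod.ext_iff, Prod.fst_add, Prod.snd_add, Finset.coe_product, Set.mem_prod] at hp ⊢
    exact ⟨⟨hp.1, hp.2.1⟩, by simp⟩
  · rintro ⟨⟨a, b⟩, x⟩ hp
    simp only [Finset.coe_filter, Finset.mem_product, Finset.mem_univ, and_true, Set.mem_setOf_eq,
      Prod.ext_iff, Prod.fst_add, Prod.snd_add, Finset.coe_product, Set.mem_prod] at hp ⊢
    exact ⟨hp.1.1, hp.1.2, by ring⟩
  · rintro ⟨⟨a, x⟩, ⟨b, y⟩⟩ hp
    simp only [Finset.coe_filter, Finset.mem_product, Finset.mem_univ, and_true, Set.mem_setOf_eq,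
      Prod.ext_iff, Prod.fst_add, Prod.snd_add] at hp
    simp only [← hp.2.2]
    simp
  · rintro ⟨⟨a, b⟩, x⟩ _
    rfl

/-- The set `{0, 1} × ZMod h`. -/
def AA (h : ℕ) [NeZero h] : Finset (ZMod 3 × ZMod h) := ({0, 1} : Finset (ZMod 3)) ×ˢ univ

lemma rep_AA (h : ℕ) [NeZero h] (g : ZMod 3 × ZMod h) :
    rep (AA h) (AA h) g = (if g.1 = 1 then 2 else 1) * h := by
  rw [AA, rep_prod]
  congr 1
  generalize g.1 = c
  revert c
  decide

lemma card_AA (h : ℕ) [NeZero h] : (AA h).card = 2 * h := by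
  rw [AA, Finset.card_product, Finset.card_univ, ZMod.card]
  rfl

lemma pop_low (h : ℕ) [NeZero h] (i : ℕ) (h1 : 1 ≤ i) (h2 : i ≤ h) :
    popular (AA h) (AA h) i = univ := by
  ext g
  rw [mem_popular _ _ _ h1, rep_AA]
  simp only [Finset.mem_univ, iff_true]
  split_ifs <;> omega

lemma pop_high (h : ℕ) [NeZero h] : popular (AA h) (AA h) (h + 1) = {1} ×ˢ univ := by
  have hp : 0 < h := NeZero.pos h
  ext g
  rw [mem_popular _ _ _ (by omega), rep_AA, Finset.mem_product, Finset.mem_singleton]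
  simp only [Finset.mem_univ, and_true]
  split_ifs with hg
  · exact ⟨fun _ => hg, fun _ => by omega⟩
  · exact ⟨fun h5 => absurd h5 (by omega), fun h5 => absurd h5 hg⟩

lemma stab_high (h : ℕ) [NeZero h] :
    stab (({1} : Finset (ZMod 3)) ×ˢ (univ : Finset (ZMod h))) = {e | e.1 = 0} := by
  ext e
  rw [stab, Set.mem_setOf_eq, Set.mem_setOf_eq]
  constructor
  · intro h5
    have h6 : e + (1, 0) ∈ (({1} : Finset (ZMod 3)) ×ˢ (univ : Finset (ZMod h))) := by
      rw [← h5]
      exact Finset.mem_image.2 ⟨(1, 0), by simp, rfl⟩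
    rw [Finset.mem_product, Finset.mem_singleton] at h6
    simpa using h6.1
  · intro h5
    ext g
    simp only [Finset.mem_image, Finset.mem_product, Finset.mem_singleton, Finset.mem_univ,
      and_true]
    constructor
    · rintro ⟨x, hx, rfl⟩
      rw [Prod.fst_add, h5, hx, zero_add]
    · intro hg
      exact ⟨g - e, by rw [Prod.fst_sub, h5, hg, sub_zero], by abel⟩

lemma card_stab (h : ℕ) [NeZero h] : Nat.card ({e : ZMod 3 × ZMod h | e.1 = 0} : Set _) = h := by
  have : Nat.card (ZMod h) = h := by rw [Nat.card_eq_fintype_card, ZMod.card]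
  conv_rhs => rw [← this]
  refine Nat.card_congr ⟨fun e => e.1.2, fun x => ⟨(0, x), rfl⟩, ?_, ?_⟩
  · rintro ⟨⟨a, x⟩, ha⟩
    simp only [Set.mem_setOf_eq] at ha
    subst ha
    rfl
  · intro x
    rfl

theorem result :
    (∀ (G : Type) [AddCommGroup G] [DecidableEq G] (A B : Finset G) (t : ℕ), 1 ≤ t →
      ∀ g : G, g ∈ popular A B t ↔ t ≤ rep A B g) ∧
    ∀ t : ℕ, 3 ≤ t → ∃ (G : Type) (_ : AddCommGroup G) (_ : DecidableEq G) (A B : Finset G),
      Finite G ∧ Hyp t A B ∧
      (∃ s u : ℕ, t = s * Nat.card (stab (popular A B t)) + u ∧ 1 ≤ u ∧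
        u ≤ Nat.card (stab (popular A B t))) ∧
      ∀ s u : ℕ, t = s * Nat.card (stab (popular A B t)) + u → 1 ≤ u →
        u ≤ Nat.card (stab (popular A B t)) → ¬ Subsets t u A B := by
  refine ⟨fun G _ _ A B t ht g => mem_popular A B t ht g, fun t ht => ?_⟩
  obtain ⟨h, rfl⟩ : ∃ h, t = h + 1 := ⟨t - 1, by omega⟩
  have : NeZero h := ⟨by omega⟩
  have hs : Nat.card (stab (popular (AA h) (AA h) (h + 1))) = h := by
    rw [pop_high, stab_high, card_stab]
  refine ⟨ZMod 3 × ZMod h, inferInstance, inferInstance, AA h, AA h, inferInstance,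
    ⟨?_, ?_, ?_⟩, ⟨1, 1, ?_, le_rfl, ?_⟩, ?_⟩
  · rw [card_AA]; omega
  · rw [card_AA]; omega
  · rw [card_AA, Finset.sum_Icc_succ_top (by omega)]
    have hsum : (∑ i ∈ Finset.Icc 1 h, ((popular (AA h) (AA h) i).card : ℤ)) = h * (3 * h) := by
      have h6 : ∀ i ∈ Finset.Icc 1 h, ((popular (AA h) (AA h) i).card : ℤ) = 3 * h := by
        intro i hi
        rw [Finset.mem_Icc] at hi
        rw [pop_low h i hi.1 hi.2, Finset.card_univ, Fintype.card_prod, ZMod.card, ZMod.card]
        push_cast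
        ring
      rw [Finset.sum_congr rfl h6, Finset.sum_const, Nat.card_Icc]
      simp
    rw [hsum, pop_high, Finset.card_product, Finset.card_univ, ZMod.card, Finset.card_singleton]
    have : (2 : ℤ) ≤ h := by exact_mod_cast (by omega : 2 ≤ h)
    push_cast
    nlinarith
  · rw [hs]; omega
  · rw [hs]; omega
  · intro s u h1 h2 h3
    rw [hs] at h1 h3
    have h4 : s = 1 ∧ u = 1 := by
      rcases Nat.lt_or_ge s 1 with h5 | h5
      · have : s = 0 := by omega
        subst this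
        omega
      · rcases Nat.lt_or_ge s 2 with h6 | h6
        · have : s = 1 := by omega
          subst this
          omega
        · have : 2 * h ≤ s * h := Nat.mul_le_mul_right h h6
          omega
    obtain ⟨rfl, rfl⟩ := h4
    rintro ⟨A', hA, B', hB, h5, -, h7, -, h8⟩
    rw [h7, pop_high, stab_high, pop_low h 1 le_rfl (by omega)] at h8
    have h9 : ((1, 0) : ZMod 3 × ZMod h) ∈ stab (univ : Finset (ZMod 3 × ZMod h)) := by
      show (univ : Finset (ZMod 3 × ZMod h)).image _ = univ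
      rw [Finset.image_univ_of_surjective]
      exact fun y => ⟨y - (1, 0), by simp⟩
    rw [h8] at h9
    exact absurd h9 (by show ¬ ((1 : ZMod 3) = 0); decide)

end Pool.Agent.Results.MP_cd64ef_nt.EveryTFromThree
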